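import Pool.Agent.MP_cce4c9_lc.H87.SpecR

/-! The size of the value set of any polynomial of bounded degree. -/

set_option autoImplicit false

open Polynomial Pool.Agent.Shared.H56

namespace Pool.Agent.MP_cce4c9_lc.H29

open H87

/-- Test for a vanishing derivative. -/
def dz (D : Ds) (fl : List El) : Bool :=
  isz D (cst D fl.length) &&
    (List.range fl.length).all fun i => isz D (mul D (cst D i) (fl.getD i []))

/-- The coefficients whose index is a multiple of the characteristic. -/
def contr (D : Ds) (fl : List El) : List El :=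
  (List.range (fl.length / D.1)).map fun i => fl.getD (D.1 * i) []

theorem pt_dz : PT fun x : Ds × List El => dz x.1 x.2 := by
  unfold dz; fun_prop

theorem pt_contr : PT fun x : Ds × List El => contr x.1 x.2 := by
  unfold contr
  have h1 : PT fun x : Ds × List El => un (x.2.length / x.1.1) :=
    PT.un_of_le (n := fun x : Ds × List El => x.2.length) (by fun_prop) (by fun_prop)
      fun _ => Nat.div_le_self _ _
  exact PT.map (f := fun (x : Ds × List El) i => x.2.getD (x.1.1 * i) []) (by fun_prop) h1.range

theorem coeff_toM {S : Type} [CommRing S] {φ : El → S} (h : φ [] = 0) (l : List El) (i : ℕ) :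
    (toM φ l).coeff i = (if i = l.length then 1 else 0) + φ (l.getD i []) := by
  rw [toM, coeff_add, coeff_X_pow, coeff_toP h]

theorem dz_iff {F : Type} [Field F] {D : Ds} (π : Pres D F) (fl : List El) :
    dz D fl = true ↔ derivative (toM π.val fl) = 0 := by
  have hm := π.hm
  simp only [dz, Bool.and_eq_true, List.all_eq_true, List.mem_range, π.isz_iff, hm.mul, hm.cst]
  constructor
  · rintro ⟨h1, h2⟩
    ext i
    rw [coeff_derivative, coeff_toM hm.nil, coeff_zero]
    rcases lt_trichotomy (i + 1) fl.length with h | h | h
    · rw [if_neg h.ne, zero_add, mul_comm]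
      exact_mod_cast h2 _ h
    · have : ((i : F) + 1) = 0 := by rw [← h] at h1; exact_mod_cast h1
      rw [this, mul_zero]
    · rw [if_neg h.ne', List.getD_eq_default _ _ h.le, hm.nil, add_zero, zero_mul]
  · intro h
    have key : ∀ i : ℕ, (toM π.val fl).coeff i * (i : F) = 0 := by
      intro i
      cases i with
      | zero => simp
      | succ i =>
        have := congrArg (fun g => coeff g i) h
        simp only [coeff_derivative, coeff_zero] at this
        exact_mod_cast this
    refine ⟨?_, fun i hi => ?_⟩
    · have := key fl.length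
      rwa [coeff_toM hm.nil, if_pos rfl, List.getD_eq_default _ _ le_rfl, hm.nil, add_zero,
        one_mul] at this
    · have := key i
      rwa [coeff_toM hm.nil, if_neg hi.ne, zero_add, mul_comm] at this

theorem range_contr {F : Type} [Field F] {D : Ds} (π : Pres D F) (fl : List El)
    (h : derivative (toM π.val fl) = 0) :
    (Set.range fun a : F => (toM π.val (contr D fl)).eval a) =
      Set.range fun a : F => (toM π.val fl).eval a := by
  have hm := π.hm
  have hp : Fact D.1.Prime := ⟨π.prime⟩
  have hc : CharP F D.1 := (CharP.charP_iff_prime_eq_zero π.prime).2 π.char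
  have hfin := π.finite
  have hp0 : 0 < D.1 := π.prime.pos
  have hL : D.1 ∣ fl.length := by
    have := ((dz_iff π fl).2 h)
    simp only [dz, Bool.and_eq_true, π.isz_iff, hm.cst] at this
    exact (CharP.cast_eq_zero_iff F D.1 _).1 this.1
  obtain ⟨m, hmL⟩ := hL
  have hlen : (contr D fl).length = m := by
    simp [contr, hmL, Nat.mul_div_cancel_left _ hp0]
  have e1 : toM π.val (contr D fl) = contract D.1 (toM π.val fl) := by
    ext i
    rw [coeff_contract hp0.ne', coeff_toM hm.nil, coeff_toM hm.nil, hlen, hmL, mul_comm i]
    congr 1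
    · by_cases hi : i = m
      · simp [hi]
      · rw [if_neg hi, if_neg fun e => hi (Nat.eq_of_mul_eq_mul_left hp0 e)]
    · by_cases hi : i < m
      · have hi' : i < fl.length / D.1 := by rwa [hmL, Nat.mul_div_cancel_left _ hp0]
        simp [contr, List.getD_eq_getElem?_getD, hi']
      · rw [List.getD_eq_default _ _ (by omega), List.getD_eq_default]
        rw [hmL]
        exact Nat.mul_le_mul_left _ (by omega)
  have e2 : expand F D.1 (toM π.val (contr D fl)) = toM π.val fl := by
    rw [e1, expand_contract D.1 h hp0.ne']
  have hs : Function.Surjective fun a : F => a ^ D.1 :=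
    Finite.surjective_of_injective (frobenius F D.1).injective
  rw [← e2]
  simp only [expand_eval]
  exact (hs.range_comp fun a : F => (toM π.val (contr D fl)).eval a).symm

theorem range_nil {F : Type} [Field F] (φ : El → F) :
    (Set.range fun a : F => (toM φ []).eval a).ncard = 1 := by
  simp [toM, toP]

theorem val1' (h1 : StmtVAL1) (d : ℕ) (hd : 0 < d) : ∃ A : Ds × List El → ℕ, PT A ∧
    ∀ (F : Type) [Field F] (D : Ds) (π : Pres D F) (fl : List El), fl.length = d →
      (∀ a ∈ fl, a.length ≤ dim D) → derivative (toM π.val fl) ≠ 0 →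
      A (D, fl) = (Set.range fun a : F => (toM π.val fl).eval a).ncard := by
  rcases Nat.lt_or_ge d 2 with h | h
  · refine ⟨fun x => x.1.1 ^ dim x.1, by fun_prop, fun F _ D π fl hl _ _ => ?_⟩
    have hl1 : fl.length = 1 := by omega
    have : (Set.range fun a : F => (toM π.val fl).eval a) = Set.univ := by
      refine Set.range_eq_univ.2 fun y => ⟨y - π.val (fl.getD 0 []), ?_⟩
      simp [toM, toP, hl1]
    rw [this, Set.ncard_univ, π.card]
  · exact h1 d h

theorem monic_all (h1 : StmtVAL1) (n : ℕ) : ∃ A : Ds × List El → ℕ, PT A ∧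
    ∀ (F : Type) [Field F] (D : Ds) (π : Pres D F) (fl : List El), fl.length ≤ n →
      (∀ a ∈ fl, a.length ≤ dim D) →
      A (D, fl) = (Set.range fun a : F => (toM π.val fl).eval a).ncard := by
  induction n with
  | zero =>
    refine ⟨fun _ => 1, by fun_prop, fun F _ D π fl hl _ => ?_⟩
    rw [List.length_eq_zero_iff.1 (Nat.le_zero.1 hl), range_nil]
  | succ n ih =>
    obtain ⟨A, hA, HA⟩ := ih
    obtain ⟨B, hB, HB⟩ := val1' h1 (n + 1) n.succ_pos
    refine ⟨fun x => if x.2.length ≤ n then A x else
      bif dz x.1 x.2 then A (x.1, contr x.1 x.2) else B x, ?_, fun F _ D π fl hl hf => ?_⟩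
    · refine PT.ite (by fun_prop) hA (PT.cond pt_dz ?_ hB)
      exact hA.comp (PT.id'.fst.prodMk pt_contr)
    · by_cases h : fl.length ≤ n
      · simp only [h, if_true]
        exact HA F D π fl h hf
      · simp only [h, if_false]
        by_cases hz : dz D fl = true
        · rw [hz, cond_true, ← range_contr π fl ((dz_iff π fl).1 hz)]
          refine HA F D π _ ?_ fun a ha => ?_
          · have := Nat.div_lt_self (show 0 < fl.length by omega) π.prime.one_lt
            simp only [contr, List.length_map, List.length_range]
            omega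
          · obtain ⟨i, -, rfl⟩ := List.mem_map.1 ha
            by_cases hi : D.1 * i < fl.length
            · rw [List.getD_eq_getElem _ _ hi]
              exact hf _ (List.getElem_mem hi)
            · rw [List.getD_eq_default _ _ (by omega)]
              exact Nat.zero_le _
        · rw [Bool.eq_false_iff.2 hz, cond_false]
          exact HB F D π fl (by omega) hf fun e => hz ((dz_iff π fl).2 e)

theorem val : StmtMON → StmtPT2 → StmtVAL1 → StmtVAL := by
  intro hM hP h1 d
  obtain ⟨A, hA, HA⟩ := monic_all h1 d
  refine ⟨fun x => A (x.1, mon x.1 x.2), hA.comp (PT.id'.fst.prodMk hP.1),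
    fun F _ D π cs hl => ?_⟩
  obtain ⟨m1, m2, m3, m4⟩ := hM F D π cs
  show A (D, mon D cs) = _
  rw [HA F D π (mon D cs) (by omega) fun a ha => (m1 a ha).le]
  by_cases h0 : toP π.val cs = 0
  · rw [h0, natDegree_zero] at m2
    rw [List.length_eq_zero_iff.1 m2, range_nil, h0]
    simp
  · have hc : (toP π.val cs).leadingCoeff⁻¹ ≠ 0 := inv_ne_zero (leadingCoeff_ne_zero.2 h0)
    rw [m4 h0, ← Set.ncard_image_of_injective (Set.range fun a : F => (toP π.val cs).eval a)
      (mul_right_injective₀ hc), ← Set.range_comp]
    simp [Function.comp_def]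

end Pool.Agent.MP_cce4c9_lc.H29
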